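import Pool.Agent.Helper59_Branch.Comm
import Pool.Agent.Helper59_Branch.Emb

set_option autoImplicit false

open Pool.Agent.Helper59_Branch

namespace Pool.Agent.Results.MP_e2d4a1_al.Uncountable

/-- the sequence `1, a 0, a 1, …` -/
def seq (a : ℕ → Bool) : ℕ → ZMod 2
  | 0 => 1
  | (n + 1) => if a n then 1 else 0

theorem seq_inj {a b : ℕ → Bool} (h : seq a = seq b) : a = b := by
  funext n
  have h1 := congrFun h (n + 1)
  simp only [seq] at h1
  revert h1
  cases a n <;> cases b n <;> decide

/-- the group `K` of the sequence `1, a 0, a 1, …`, as an expansively embeddable profinite branch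
group -/
noncomputable def family (a : ℕ → Bool) : EEBranchGroup where
  T := T3
  homogeneous := T3_homogeneous
  U := K (seq a)
  branch := K_isBranch rfl
  embeddable := K_embeddable rfl

/-- Commensurability is an equivalence relation on the expansively embeddable profinite branch
groups; there are continuum many pairwise non-commensurable ones; and no countable family of them
meets all commensurability classes. -/
theorem result :
    Equivalence EEBranchGroup.Comm ∧
    (∃ F : (ℕ → Bool) → EEBranchGroup, ∀ a b, (F a).Comm (F b) → a = b) ∧
    ¬ ∃ F : ℕ → EEBranchGroup, ∀ G : EEBranchGroup, ∃ n, G.Comm (F n) := by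
  have hfam : ∀ a b, (family a).Comm (family b) → a = b :=
    fun a b h => seq_inj (eq_of_commensurable rfl rfl h)
  have htrans : ∀ {G G' G'' : EEBranchGroup}, G.Comm G' → G'.Comm G'' → G.Comm G'' :=
    fun h h' => Commensurable.trans h h'
  have hsymm : ∀ {G G' : EEBranchGroup}, G.Comm G' → G'.Comm G :=
    fun h => Commensurable.symm h
  refine ⟨⟨fun G => Commensurable.refl _, hsymm, htrans⟩, ⟨family, hfam⟩, ?_⟩
  rintro ⟨F, hF⟩
  choose n hn using fun a => hF (family a)
  have hinj : Function.Injective n := by
    intro a b hab
    apply hfam
    have h1 := hn a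
    rw [hab] at h1
    exact htrans h1 (hsymm (hn b))
  exact (Cardinal.mk_le_of_injective hinj).not_gt (by simpa using Cardinal.cantor Cardinal.aleph0)

end Pool.Agent.Results.MP_e2d4a1_al.Uncountable
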